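import Mathlib
import Pool.Agent.Helper20.Glimm.Sphere

/-!
A Borsuk-Ulam theorem for involutions of contractible spaces.
-/

open Topology Set

namespace Pool.Agent.Helper55.Circ

/-- sequences with a nonzero entry among the entries `0, ..., j` -/
def Dset (j : ℕ) : Set (ℕ → ℝ) := {y | ∃ i, i ≤ j ∧ y i ≠ 0}

lemma isOpen_Dset (j : ℕ) : IsOpen (Dset j) := by
  have : Dset j = ⋃ i ∈ Finset.range (j + 1), {y : ℕ → ℝ | y i ≠ 0} := by
    ext y; simp [Dset]
  rw [this]
  refine isOpen_biUnion fun i _ => ?_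
  exact isOpen_ne_fun (continuous_apply i) continuous_const

/-- the size of the first entries -/
noncomputable def Nrm (j : ℕ) (y : ℕ → ℝ) : ℝ := ∑ i ∈ Finset.range (j + 1), |y i|

lemma continuous_Nrm (j : ℕ) : Continuous (Nrm j) := by
  unfold Nrm; fun_prop

lemma Nrm_neg (j : ℕ) (y : ℕ → ℝ) : Nrm j (-y) = Nrm j y := by simp [Nrm]

lemma Nrm_nonneg (j : ℕ) (y : ℕ → ℝ) : 0 ≤ Nrm j y :=
  Finset.sum_nonneg fun _ _ => abs_nonneg _

lemma Nrm_pos {j : ℕ} {y : ℕ → ℝ} (h : y ∈ Dset j) : 0 < Nrm j y := by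
  obtain ⟨i, hi, hy⟩ := h
  refine Finset.sum_pos' (fun _ _ => abs_nonneg _) ⟨i, Finset.mem_range.2 (by omega), ?_⟩
  exact abs_pos.2 hy

lemma Nrm_eq_zero {j : ℕ} {y : ℕ → ℝ} (h : y ∉ Dset j) : Nrm j y = 0 := by
  refine Finset.sum_eq_zero fun i hi => ?_
  by_contra h2
  exact h ⟨i, by have := Finset.mem_range.1 hi; omega, abs_ne_zero.1 h2⟩

/-- the parameter in the contraction -/
noncomputable def tpar (j : ℕ) (y : ℕ → ℝ) : ℝ := |y (j + 1)| / max (Nrm j y) |y (j + 1)|

lemma max_pos_of_mem {j : ℕ} {y : ℕ → ℝ} (h : y ∈ Dset (j + 1)) :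
    0 < max (Nrm j y) |y (j + 1)| := by
  by_cases h2 : y ∈ Dset j
  · exact lt_max_of_lt_left (Nrm_pos h2)
  · obtain ⟨i, hi, hy⟩ := h
    have : i = j + 1 := by
      by_contra h3
      exact h2 ⟨i, by omega, hy⟩
    subst this
    exact lt_max_of_lt_right (abs_pos.2 hy)

lemma continuousOn_tpar (j : ℕ) : ContinuousOn (tpar j) (Dset (j + 1)) := by
  unfold tpar
  refine ContinuousOn.div (by fun_prop) ?_ fun y hy => (max_pos_of_mem hy).ne'
  exact ((continuous_Nrm j).max (by fun_prop)).continuousOn

lemma tpar_mem {j : ℕ} {y : ℕ → ℝ} : tpar j y ∈ Icc (0 : ℝ) 1 := by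
  refine ⟨div_nonneg (abs_nonneg _) (le_max_of_le_right (abs_nonneg _)), ?_⟩
  refine div_le_one_of_le₀ (le_max_right _ _) (le_max_of_le_right (abs_nonneg _))

lemma tpar_neg {j : ℕ} {y : ℕ → ℝ} : tpar j (-y) = tpar j y := by
  simp [tpar, Nrm_neg]

lemma tpar_eq_one {j : ℕ} {y : ℕ → ℝ} (h : Nrm j y < |y (j + 1)|) : tpar j y = 1 := by
  unfold tpar
  rw [max_eq_right h.le]
  exact div_self ((Nrm_nonneg j y).trans_lt h).ne'

lemma tpar_eq_zero {j : ℕ} {y : ℕ → ℝ} (h : y (j + 1) = 0) : tpar j y = 0 := by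
  simp [tpar, h]

variable {U : Type*} [TopologicalSpace U]

theorem exists_odd_map [ContractibleSpace U] (T : U → U) (hT : Continuous T)
    (hTT : ∀ u, T (T u) = u) (j : ℕ) :
    ∃ E : (ℕ → ℝ) → U, ContinuousOn E (Dset j) ∧ ∀ y ∈ Dset j, E (-y) = T (E y) := by
  obtain ⟨u0, ⟨c⟩⟩ := id_nullhomotopic U
  induction j with
  | zero =>
    refine ⟨fun y => if 0 ≤ y 0 then u0 else T u0, ?_, ?_⟩
    · refine ContinuousOn.if (fun y hy => ?_) continuousOn_const continuousOn_const
      exfalso
      obtain ⟨⟨i, hi, hy1⟩, hy2⟩ := hy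
      have hi0 : i = 0 := by omega
      subst hi0
      exact hy1 (frontier_le_subset_eq continuous_const (continuous_apply 0) hy2).symm
    · rintro y ⟨i, hi, hy1⟩
      have hi0 : i = 0 := by omega
      subst hi0
      simp only [Pi.neg_apply]
      rcases lt_or_gt_of_ne hy1 with h | h
      · rw [if_pos (by linarith), if_neg (by linarith), hTT]
      · rw [if_neg (by linarith), if_pos (by linarith)]
  | succ j ih =>
    obtain ⟨E, hE, hE2⟩ := ih
    let t : (ℕ → ℝ) → unitInterval := fun y => ⟨tpar j y, tpar_mem⟩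
    have ht : ContinuousOn t (Dset (j + 1)) := by
      exact IsInducing.subtypeVal.continuousOn_iff.2 (continuousOn_tpar j)
    let G : (ℕ → ℝ) → U := fun y => c (t y, E y)
    have hG : ContinuousOn G (Dset (j + 1)) := by
      intro y hy
      by_cases h : y ∈ Dset j
      · have h1 : ContinuousAt E y := hE.continuousAt ((isOpen_Dset j).mem_nhds h)
        have h2 : ContinuousAt t y := ht.continuousAt ((isOpen_Dset (j + 1)).mem_nhds hy)
        exact (c.continuous.continuousAt.comp (h2.prodMk h1)).continuousWithinAt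
      · have h1 : Nrm j y < |y (j + 1)| := by
          have := max_pos_of_mem hy
          rw [Nrm_eq_zero h] at this ⊢
          rcases lt_max_iff.1 this with h | h
          · exact absurd h (lt_irrefl _)
          · exact h
        have h2 : ∀ᶠ y' in 𝓝 y, Nrm j y' < |y' (j + 1)| := by
          refine (isOpen_lt (continuous_Nrm j) (by fun_prop)).mem_nhds h1
        have h3 : G =ᶠ[𝓝 y] fun _ => u0 := by
          filter_upwards [h2] with y' hy'
          have : t y' = 1 := Subtype.ext (tpar_eq_one hy')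
          simp only [G, this]
          simp
        exact (continuousAt_const.congr h3.symm).continuousWithinAt
    have hneg : ∀ y : ℕ → ℝ, y ∈ Dset (j + 1) → -y ∈ Dset (j + 1) := by
      rintro y ⟨i, hi, hy⟩
      exact ⟨i, hi, by simpa using hy⟩
    have hG0 : ∀ y ∈ Dset (j + 1), y (j + 1) = 0 → y ∈ Dset j ∧ G y = E y := by
      rintro y ⟨i, hi, hy⟩ h0
      refine ⟨⟨i, ?_, hy⟩, ?_⟩
      · by_contra h
        have : i = j + 1 := by omega
        subst this
        exact hy h0
      · have : t y = 0 := Subtype.ext (tpar_eq_zero h0)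
        simp only [G, this]
        simp
    refine ⟨fun y => if 0 ≤ y (j + 1) then G y else T (G (-y)), ?_, ?_⟩
    · refine ContinuousOn.if (fun y hy => ?_) (hG.mono inter_subset_left) ?_
      · obtain ⟨hy1, hy2⟩ := hy
        have h0 : y (j + 1) = 0 :=
          (frontier_le_subset_eq continuous_const (continuous_apply (j + 1)) hy2).symm
        obtain ⟨h1, h2⟩ := hG0 y hy1 h0
        obtain ⟨h3, h4⟩ := hG0 (-y) (hneg y hy1) (by simpa using h0)
        rw [h2, h4, hE2 y h1, hTT]
      · refine ContinuousOn.mono ?_ inter_subset_left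
        exact hT.comp_continuousOn (hG.comp continuous_neg.continuousOn hneg)
    · intro y hy
      rcases lt_trichotomy (y (j + 1)) 0 with h | h | h
      · have h1 : 0 ≤ (-y) (j + 1) := by simp only [Pi.neg_apply]; linarith
        simp only [if_pos h1, if_neg (not_le.2 h), hTT]
      · obtain ⟨h1, h2⟩ := hG0 y hy h
        obtain ⟨h3, h4⟩ := hG0 (-y) (hneg y hy) (by simpa using h)
        have h5 : 0 ≤ (-y) (j + 1) := by simp [h]
        simp only [if_pos h5, if_pos h.ge, h2, h4]
        exact hE2 y h1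
      · have h1 : ¬ 0 ≤ (-y) (j + 1) := by simp only [Pi.neg_apply]; linarith
        simp only [if_neg h1, if_pos h.le, neg_neg]

open Pool.Agent.Helper20.Glimm in
theorem exists_common_zero [ContractibleSpace U] (T : U → U) (hT : Continuous T)
    (hTT : ∀ u, T (T u) = u) {Λ : Type*} (ls : List Λ) (G : Λ → U → ℝ)
    (hG : ∀ x, Continuous (G x)) (hodd : ∀ x u, G x (T u) = - G x u) :
    ∃ u, ∀ x ∈ ls, G x u = 0 := by
  obtain ⟨E, hE, hE2⟩ := exists_odd_map T hT hTT ls.length
  let m : ℕ → ℕ := fun j => if j = 0 then ls.length else 0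
  have hmem : ∀ y : Y m, (fun i => y.1 (0, i)) ∈ Dset ls.length := by
    intro y
    obtain ⟨-, ⟨i, hi, h⟩, -⟩ := y.2 0
    refine ⟨i, by simpa [m, Nat.lt_succ_iff] using hi, ?_⟩
    intro h0
    simp only [h0, abs_zero] at h
    exact one_ne_zero h.symm
  let σ : Y m → U := fun y => E (fun i => y.1 (0, i))
  have hσ : Continuous σ := by
    refine hE.comp_continuous (continuous_pi fun i => ?_) hmem
    exact (continuous_apply (0, i)).comp continuous_subtype_val
  obtain ⟨y, hy⟩ := borsukUlam (m := m) 1 (fun x y => G x (σ y)) (fun x => (hG x).comp hσ)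
    (fun _ j => if j = 0 then 1 else 0) (fun x j y => by
      by_cases hj : j = 0
      · subst hj
        simp only [if_true, one_ne_zero, if_false]
        have : σ (flipY 0 y) = T (σ y) := by
          have h1 : (fun i => (flipY 0 y).1 (0, i)) = -(fun i => y.1 (0, i)) := by
            funext i
            simp [flipY_apply]
          simp only [σ]
          rw [h1, hE2 _ (hmem y)]
        rw [this, hodd]
      · simp only [hj, if_false, if_true]
        have : σ (flipY j y) = σ y := by
          have h1 : (fun i => (flipY j y).1 (0, i)) = (fun i => y.1 (0, i)) := by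
            funext i
            rw [flipY_apply]
            rw [if_neg (fun h => hj h.symm)]
          simp only [σ]
          rw [h1]
        rw [this]) ls (by
      refine cnt_tri 1 (fun _ j => if j = 0 then 1 else 0) (fun _ => 0) (fun x => by simp)
        (fun x j hj => by simp [hj.ne']) ls m (fun _ _ => one_pos) ?_ ?_
      · exact List.pairwise_of_forall (fun _ _ => le_rfl)
      · intro j hj
        have : j = 0 := by omega
        subst this
        simp [m])
  exact ⟨σ y, hy⟩

end Pool.Agent.Helper55.Circ
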