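import Mathlib

/-!
Finite coverings of compact Hausdorff spaces.
-/

open Topology Set TopologicalSpace

namespace Pool.Agent.Helper55.Circ

theorem isProperMap_of_isCoveringMap {N M : Type*} [TopologicalSpace N] [TopologicalSpace M]
    {q : N → M} (hq : IsCoveringMap q) (hfin : ∀ y, (q ⁻¹' {y}).Finite) : IsProperMap q := by
  rw [isProperMap_iff_isClosedMap_and_compact_fibers]
  refine ⟨hq.continuous, ?_, fun y => (hfin y).isCompact⟩
  choose hd V hV1 hV2 hV3 H hH using hq
  let O : M → Opens M := fun y => ⟨V y, hV2 y⟩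
  have hO : IsOpenCover O := by
    refine IsOpenCover.mk ?_
    ext y
    simp only [Opens.coe_iSup, mem_iUnion, Opens.coe_top, mem_univ, iff_true]
    exact ⟨y, hV1 y⟩
  rw [hO.isClosedMap_iff_restrictPreimage]
  intro y
  have hf : Finite (q ⁻¹' {y}) := (hfin y).to_subtype
  have h1 : ((O y).1.restrictPreimage q) = Prod.fst ∘ (H y) := by
    funext x
    exact Subtype.ext (hH y x).symm
  rw [h1]
  have h2 : CompactSpace (q ⁻¹' {y}) := inferInstance
  exact isClosedMap_fst_of_compactSpace.comp (H y).isClosedMap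

theorem compactSpace_of_isCoveringMap {N M : Type*} [TopologicalSpace N] [TopologicalSpace M]
    [CompactSpace M] {q : N → M} (hq : IsCoveringMap q) (hfin : ∀ y, (q ⁻¹' {y}).Finite) :
    CompactSpace N := by
  constructor
  rw [← preimage_univ (f := q)]
  exact (isProperMap_of_isCoveringMap hq hfin).isCompact_preimage isCompact_univ

theorem t2Space_of_isCoveringMap {N M : Type*} [TopologicalSpace N] [TopologicalSpace M]
    [T2Space M] {q : N → M} (hq : IsCoveringMap q) : T2Space N := by
  constructor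
  intro x y hxy
  by_cases h : q x = q y
  · exact hq.isSeparatedMap x y h hxy
  · obtain ⟨A, B, hA, hB, hxA, hyB, hAB⟩ := t2_separation h
    exact ⟨q ⁻¹' A, q ⁻¹' B, hA.preimage hq.continuous, hB.preimage hq.continuous, hxA, hyB,
      hAB.preimage q⟩

/-- A free involution of a compact Hausdorff space has finitely many odd functions without a
common zero. -/
theorem exists_odd_functions {N : Type*} [TopologicalSpace N] [CompactSpace N] [T2Space N]
    (ι : N → N) (hι : Continuous ι) (hιι : ∀ n, ι (ι n) = n) (hfree : ∀ n, ι n ≠ n) :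
    ∃ (ls : List N) (F : N → N → ℝ), (∀ x, Continuous (F x)) ∧ (∀ x n, F x (ι n) = - F x n) ∧
      ∀ n, ∃ x ∈ ls, F x n ≠ 0 := by
  have hex : ∀ n : N, ∃ f : C(N, ℝ), f n = 1 ∧ f (ι n) = 0 := by
    intro n
    obtain ⟨f, hf1, hf2, hf3⟩ := exists_continuous_zero_one_of_isClosed
      (isClosed_singleton (x := ι n)) (isClosed_singleton (x := n))
      (disjoint_singleton.2 (hfree n))
    exact ⟨f, hf2 rfl, hf1 rfl⟩
  choose f hf1 hf2 using hex
  have hc : ∀ x, Continuous (fun n => f x n - f x (ι n)) := fun x =>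
    (f x).continuous.sub ((f x).continuous.comp hι)
  obtain ⟨t, ht⟩ := isCompact_univ.elim_finite_subcover
    (fun x => {n : N | f x n - f x (ι n) ≠ 0})
    (fun x => isOpen_ne_fun (hc x) continuous_const)
    (fun n _ => mem_iUnion.2 ⟨n, by simp [hf1, hf2]⟩)
  refine ⟨t.toList, fun x n => f x n - f x (ι n), hc, fun x n => by simp [hιι], fun n => ?_⟩
  obtain ⟨x, hx, hx2⟩ := mem_iUnion₂.1 (ht (mem_univ n))
  exact ⟨x, Finset.mem_toList.2 hx, hx2⟩

end Pool.Agent.Helper55.Circ
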